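import Pool.Agent.Y497.PH.Chix

/-! P13 (project of helper260): the sum over the axis variable to all orders, at a given critical
point. -/

set_option autoImplicit false

namespace Pool.Agent.Run7.h440.VU

open Filter Topology Metric Set MeasureTheory
open Pool.Agent.W711.HT hiding XX
open Pool.Agent.W719.AX (UX EXY ig GX)
open Pool.Agent.Y391.CB
open Pool.Agent.Y472 (wE)
open Pool.Agent.Y482.Ph
open Pool.Agent.Y497.PH
open scoped Real Interval

/-- P13 -/
theorem chixz (R c : ℝ) (hR : 0 < R) (hR1 : R ≤ 1) (hc : 0 < c)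
    (X : ℕ → ℂ → ℂ) (G : ℂ → ℂ) (A : ℕ → ℂ → ℂ) (hX : ∀ N, Differentiable ℂ (X N))
    (hXe : ∀ N z, X N (-z) = X N z) (hG : DifferentiableOn ℂ G (Rc R R))
    (hGX : GXc R X G A) (m : ℤ) (z : ℂ) (h1 : z ∈ Rc (R / 4) (R / 4)) (h2 : 0 < z.im)
    (h5 : SAD (2 * m) G (R / 4) z)
    (h7 : ∀ x : ℝ, |x| ≤ R / 3 → (qq (2 * m) G (x + z.im * Complex.I)).re ≤
      (qq (2 * m) G z).re - c / 2 * (x - z.re) ^ 2) :
    ∃ y : ℕ → ℂ, y 0 ≠ 0 ∧ EXY (fun N => nearS R N (deriv fun χ => wE N m χ * X N χ))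
      (qq (2 * m) G z) y := by
  have hpi := Real.pi_pos
  have hopen : IsOpen (Rc R R) := Pool.Agent.W293.HT.isOpen_Rc _ _
  have h0in : (0 : ℂ) ∈ Rc R R := ⟨by simpa using hR, by simpa using hR⟩
  have hzin : z ∈ Rc R R := Pool.Agent.W293.HT.Rc_mono (by linarith) (by linarith) h1
  obtain ⟨C₀, hC₀⟩ := hGX.ux 0
  have hU : ∀ᶠ N : ℕ in atTop, ∀ w ∈ Rc R R, ‖Complex.exp (-(N * G w)) * X N w‖ ≤ C₀ := by
    filter_upwards [hC₀] with N hN w hw
    have := hN w hw
    simpa using this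
  have hC0 : 0 ≤ C₀ := by
    obtain ⟨N, hN⟩ := hU.exists
    exact (norm_nonneg _).trans (hN 0 h0in)
  obtain ⟨δ, hδd⟩ : ∃ δ : ℝ, δ = R / 4 - |z.re| := ⟨_, rfl⟩
  have hδ : 0 < δ := by
    rw [hδd]
    have : |z.re| < R / 4 := h1.1
    linarith
  have hδR : δ ≤ R / 4 := by
    rw [hδd]
    have := abs_nonneg z.re
    linarith
  obtain ⟨W, hW⟩ : ∃ W : ℕ → ℂ, W = fun N =>
      2 * (∫ x in (-rN R N)..(rN R N), wE N m (x + z.im * Complex.I) *
          X N (x + z.im * Complex.I) * kN N (x + z.im * Complex.I)) -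
        2 * Complex.I * (∫ y in (-z.im)..z.im, wE N m (rN R N + y * Complex.I) *
          X N (rN R N + y * Complex.I) * kN N (rN R N + y * Complex.I)) := ⟨_, rfl⟩
  have hsub2 : Rc (R / 2) (R / 2) ⊆ Rc R R :=
    Pool.Agent.W293.HT.Rc_mono (by linarith) (by linarith)
  have hgx : GX (R / 2) (R / 2) 0 X G A := by
    refine ⟨?_, fun k => (hGX.an k).mono hsub2, fun w hw => hGX.nz w (hsub2 hw)⟩
    intro K
    obtain ⟨C, hC⟩ := hGX.ux K
    refine ⟨C, ?_⟩
    filter_upwards [hC] with N hN w hw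
    have := hN w (hsub2 hw)
    simpa using this
  obtain ⟨B, hB⟩ : ∃ B : ℝ, ∀ w ∈ Rc (R / 2) (R / 2), ‖G w‖ ≤ B := by
    have hcomp : IsCompact ({w : ℂ | |w.re| ≤ R / 2 ∧ |w.im| ≤ R / 2}) := by
      have e1 : {w : ℂ | |w.re| ≤ R / 2 ∧ |w.im| ≤ R / 2} =
          (Set.Icc (-(R / 2)) (R / 2)) ×ℂ (Set.Icc (-(R / 2)) (R / 2)) := by
        ext w
        simp only [Set.mem_setOf_eq, Complex.mem_reProdIm, Set.mem_Icc, abs_le]
      rw [e1]
      exact isCompact_Icc.reProdIm isCompact_Icc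
    have hcont : ContinuousOn G {w : ℂ | |w.re| ≤ R / 2 ∧ |w.im| ≤ R / 2} :=
      hG.continuousOn.mono fun w hw => ⟨lt_of_le_of_lt hw.1 (by linarith),
        lt_of_le_of_lt hw.2 (by linarith)⟩
    obtain ⟨B, hB⟩ := hcomp.exists_bound_of_continuousOn hcont
    exact ⟨B, fun w hw => hB w ⟨le_of_lt hw.1, le_of_lt hw.2⟩⟩
  have hneg : 0 < -(deriv (deriv (qq (2 * m) G)) z).re := neg_pos.2 h5.neg
  have key := Pool.Agent.W21.AX.locx (Pool.Agent.W762.AX.lx Pool.Agent.W303.AX.uxbd)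
    Pool.Agent.W303.AX.uxmul (R / 2) (R / 2) δ
    (-(deriv (deriv (qq (2 * m) G)) z).re) 0 (2 * m) Unit Set.univ X G A (fun _ _ _ => 1)
    (fun n _ => if n = 0 then 1 else 0) (fun _ _ => 0) (fun _ => z) (fun _ => qq (2 * m) G z)
    (fun N _ => (-1) ^ N * W N) hδ hneg hgx hX (hG.mono hsub2)
    (by
      intro _ _ u hu
      rw [mem_ball_zero_iff] at hu
      have k1 := Complex.abs_re_le_norm u
      have k2 := Complex.abs_im_le_norm u
      have k3 : |z.re| < R / 4 := h1.1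
      have k4 : |z.im| < R / 4 := h1.2
      refine ⟨?_, ?_⟩
      · show |(z + u).re| < R / 2
        rw [Complex.add_re]
        have := abs_add_le z.re u.re
        linarith
      · show |(z + u).im| < R / 2
        rw [Complex.add_im]
        have := abs_add_le z.im u.im
        linarith)
    ⟨B, fun w hw => ⟨hB w hw, fun _ _ => by
      rw [norm_zero]
      exact (norm_nonneg _).trans (hB w hw)⟩⟩
    (fun _ _ _ => continuousOn_const) (fun _ _ => differentiableOn_const _)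
    (Pool.Agent.W21.AX.ux_cst (fun _ => (1 : ℂ)) _ 1 (fun _ _ => by simp))
    (fun _ _ _ => differentiableOn_const _) (fun _ _ => by simp)
    (by
      intro _ _
      have k0 : (fun w => G w + (0 : ℂ)) = G := by
        funext w
        rw [add_zero]
      simp only [k0]
      refine ⟨h5.sn, trivial, h5.crit, ?_⟩
      rw [neg_neg])
    (by
      intro δ' hδ' hδδ
      obtain ⟨κ', hκ', hκ⟩ := loc hR hR1 hX hXe hG hC0 hU m h1 h2 h5 hc h7 hδ' (by
        rw [hδd] at hδδ hδ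
        linarith)
      refine ⟨κ', hκ', ?_⟩
      filter_upwards [hκ] with N hN _ _
      have k1 : (∫ x in (-δ')..δ', ig (2 * m) N (z + x) *
          (X N (z + x) * (Complex.exp (N * 0) * 1))) =
          (-1) ^ N * ∫ x in (-δ')..δ', 2 * Complex.sin (z + x) * eI m X N (z + x) := by
        rw [← intervalIntegral.integral_const_mul]
        apply intervalIntegral.integral_congr
        intro x _
        simp only [ig, eI, mul_zero, Complex.exp_zero, mul_one]
        ring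
      rw [k1, ← mul_sub, norm_mul, norm_pow, norm_neg, norm_one, one_pow, one_mul, hW]
      exact hN)
  obtain ⟨Bc, hBc, hB0⟩ := key
  refine ⟨fun k => -(Complex.I / (2 * π)) * Bc k (), ?_, ?_⟩
  · refine mul_ne_zero (neg_ne_zero.2 (div_ne_zero Complex.I_ne_zero ?_)) (hB0 () (mem_univ _))
    exact_mod_cast (by positivity : (2 * π : ℝ) ≠ 0)
  intro K
  obtain ⟨C, hC⟩ := hBc K
  refine ⟨1 / (2 * π) * C, ?_⟩
  filter_upwards [hC, eventually_ge_atTop 1] with N hN hN1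
  have hN0 : (0 : ℝ) < N := by exact_mod_cast hN1
  have hNc : (N : ℂ) ≠ 0 := by exact_mod_cast hN0.ne'
  have hb' := hN () (mem_univ _)
  have hFd : Differentiable ℂ (fun χ => wE N m χ * X N χ) := (wE_diff N m).mul (hX N)
  have hFo : ∀ w, (fun χ => wE N m χ * X N χ) (-w) = -(fun χ => wE N m χ * X N χ) w := by
    intro w
    simp only
    rw [wE_odd, hXe, neg_mul]
  have hs := sum_deriv hFd hFo hN1 ⌊R / 4 * N / (2 * π)⌋₊ h2
  have hs2 : nearS R N (deriv fun χ => wE N m χ * X N χ) =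
      -(Complex.I / (2 * π)) * (N * (N * W N)) := by
    have k1 : nearS R N (deriv fun χ => wE N m χ * X N χ) =
        ∑ p ∈ Finset.Icc (-(⌊R / 4 * N / (2 * π)⌋₊ : ℤ)) ⌊R / 4 * N / (2 * π)⌋₊,
          deriv (fun χ => wE N m χ * X N χ) (2 * π * p / N) := rfl
    rw [k1, hs, hW]
    unfold rN
    ring
  have hsq : ((Real.sqrt N : ℝ) : ℂ) * ((Real.sqrt N : ℝ) : ℂ) = N := by
    rw [← Complex.ofReal_mul, Real.mul_self_sqrt hN0.le, Complex.ofReal_natCast]
  have hsq0 : ((Real.sqrt N : ℝ) : ℂ) ≠ 0 := by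
    exact_mod_cast (Real.sqrt_pos.2 hN0).ne'
  have hsg : ((-1 : ℂ) ^ N) * (-1) ^ N = 1 := by
    rw [← mul_pow]
    norm_num
  have hen := Complex.exp_ne_zero (N * qq (2 * m) G z)
  have hee : Complex.exp (-(N * qq (2 * m) G z)) = (Complex.exp (N * qq (2 * m) G z))⁻¹ :=
    Complex.exp_neg _
  have hkey : nearS R N (deriv fun χ => wE N m χ * X N χ) /
      (((Real.sqrt N) ^ 3 : ℝ) * Complex.exp (N * qq (2 * m) G z)) =
      -(Complex.I / (2 * π)) * ((N : ℂ) ^ (2 * 0) * (Real.sqrt N : ℂ) * (-1) ^ (N * (0 + 1)) *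
      Complex.exp (-(N * qq (2 * m) G z)) * ((-1) ^ N * W N)) := by
    rw [hs2, hee]
    have k1 : (((Real.sqrt N) ^ 3 : ℝ) : ℂ) = ((Real.sqrt N : ℝ) : ℂ) ^ 3 := by push_cast; rfl
    rw [k1, mul_zero, pow_zero, one_mul, zero_add, mul_one]
    generalize Complex.exp (N * qq (2 * m) G z) = E at *
    rw [div_eq_iff (mul_ne_zero (pow_ne_zero _ hsq0) hen)]
    have k2 : E⁻¹ * E = 1 := inv_mul_cancel₀ hen
    generalize (Real.sqrt N : ℂ) = s at *
    have k3 : s * s * (s * s) = N * N := by rw [hsq]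
    linear_combination (Complex.I / (2 * π) * W N) * k3 +
      (Complex.I / (2 * π) * W N * s ^ 4 * ((-1) ^ N * (-1) ^ N)) * k2 +
      (Complex.I / (2 * π) * W N * s ^ 4) * hsg
  rw [hkey]
  have e3 : ∑ k ∈ Finset.range K, -(Complex.I / (2 * π)) * Bc k () / (N : ℂ) ^ k =
      -(Complex.I / (2 * π)) * ∑ k ∈ Finset.range K, Bc k () / (N : ℂ) ^ k := by
    rw [Finset.mul_sum]
    exact Finset.sum_congr rfl fun k _ => mul_div_assoc _ _ _
  rw [e3, ← mul_sub, norm_mul]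
  have e4 : ‖-(Complex.I / (2 * π))‖ = 1 / (2 * π) := by
    rw [norm_neg, norm_div, Complex.norm_I, norm_mul, Complex.norm_ofNat, Complex.norm_real,
      Real.norm_of_nonneg hpi.le]
  rw [e4, mul_div_assoc]
  exact mul_le_mul_of_nonneg_left hb' (by positivity)

end Pool.Agent.Run7.h440.VU
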