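import Pool.Agent.Run7.h260.VU.Iface
import Pool.Agent.Run7.h440.VU.Core

/-! P13 of the project VU of helper260. -/

set_option autoImplicit false

namespace Pool.Agent.Run7.h440.VU

theorem t_P13 : Run7.h260.VU.S_P13 := by
  intro R c hR hR1 hc X G A hX hXe hG _ hGX m z h1 h2 h5 h7
  exact chixz R c hR hR1 hc X G A hX hXe hG hGX m z h1 h2 h5 h7

end Pool.Agent.Run7.h440.VU
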